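import Pool.Agent.H44.DU.Targets

/-!
# Module SC of the board `du_modules`
-/

set_option autoImplicit false

namespace Pool.Agent.H59.DU.SC

open Pool.Agent.H44.DU

variable {n : ℕ} (S : Surf n)

/-! ### Positive factors -/

theorem step_scale (d : ℂ) (l : ℝ) (hl : 0 < l) : S.Step ((l : ℂ) * d) = S.Step d := by
  funext c p q
  apply propext
  constructor
  · rintro ⟨h1, r, σ, h2, h3, h4, h5, h6, h7⟩
    have e : ((σ * l : ℝ) : ℂ) * d = (σ : ℂ) * ((l : ℂ) * d) := by push_cast; ring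
    refine ⟨h1, r, σ * l, h2, h3, mul_pos h4 hl, ?_, ?_, h7⟩
    · rw [e]; exact h5
    · rw [e]; exact h6
  · rintro ⟨h1, r, σ, h2, h3, h4, h5, h6, h7⟩
    have hl' : (l : ℂ) ≠ 0 := by exact_mod_cast hl.ne'
    have e : ((σ / l : ℝ) : ℂ) * ((l : ℂ) * d) = (σ : ℂ) * d := by
      push_cast
      field_simp
    refine ⟨h1, r, σ / l, h2, h3, div_pos h4 hl, ?_, ?_, h7⟩
    · rw [e]; exact h5
    · rw [e]; exact h6

theorem ms_congr {d d' : ℂ} (h : S.Step d' = S.Step d) (hd : S.MorseSmale d) :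
    S.MorseSmale d' := by
  have hC : S.Cyc d' = S.Cyc d := by
    funext m x c
    unfold Surf.Cyc
    rw [h]
  have hP : S.Per d' = S.Per d := by
    unfold Surf.Per
    rw [hC]
  have hA : S.AccPer d' = S.AccPer d := by
    funext x
    unfold Surf.AccPer
    rw [hP]
  unfold Surf.MorseSmale at hd ⊢
  rw [hC, hP, hA, h]
  exact hd

/-! ### The reversed leaves -/

/-- The same point of the surface, seen from the other triangle. -/
noncomputable def G (p : Side n × ℂ) : Side n × ℂ := (S.gl p.1, S.a p.1 * p.2 + S.b p.1)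

theorem back (s : Side n) (z : ℂ) : (S.a (S.gl s) : ℂ) * (S.a s * z + S.b s) + S.b (S.gl s) = z := by
  have h := S.a_ne s
  rw [S.a_gl, S.b_gl]
  push_cast
  field_simp
  ring

theorem G_G (p : Side n × ℂ) : G S (G S p) = p := by
  refine Prod.ext ?_ ?_
  · exact S.gl_gl p.1
  · exact back S p.1 p.2

theorem G_mem {s : Side n} {z : ℂ} (h : z ∈ openSegment ℝ (S.P s) (S.Q s)) :
    S.a s * z + S.b s ∈ openSegment ℝ (S.P (S.gl s)) (S.Q (S.gl s)) := by
  obtain ⟨α, β, h1, h2, h3, rfl⟩ := h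
  refine ⟨β, α, h2, h1, by rw [add_comm]; exact h3, ?_⟩
  rw [S.Q_gl, S.P_gl]
  simp only [Complex.real_smul]
  have h4 : (α : ℂ) + β = 1 := by exact_mod_cast h3
  linear_combination S.b s * h4

theorem step_rev {d : ℂ} {c : ℝ} {p q : Side n × ℂ} (h : S.Step d c p q) :
    S.Step (-d) (S.a p.1) (G S q) (G S p) ∧ c = (S.a q.1)⁻¹ := by
  obtain ⟨h1, r, σ, h2, h3, h4, h5, h6, h7⟩ := h
  have e : G S q = (r, p.2 + σ * d) := by
    rw [h6]
    refine Prod.ext ?_ ?_
    · exact S.gl_gl r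
    · exact back S r _
  have e2 : p.2 + σ * d + σ * (-d) = p.2 := by ring
  refine ⟨?_, ?_⟩
  · rw [e]
    refine ⟨h5, p.1, σ, h2.symm, fun h => h3 h.symm, h4, ?_, ?_, rfl⟩
    · rw [e2]; exact h1
    · rw [e2]; rfl
  · rw [h6, h7]
    change S.a r = (S.a (S.gl r))⁻¹
    rw [S.a_gl, inv_inv]

theorem cyc_rev {d : ℂ} {m : ℕ} {x : ℕ → Side n × ℂ} {c : ℕ → ℝ} (h : S.Cyc d m x c) :
    S.Cyc (-d) m (fun k => G S (x (m - k))) (fun k => S.a (x (m - 1 - k)).1) := by
  obtain ⟨h1, h2, h3⟩ := h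
  refine ⟨h1, fun k hk => ?_, ?_⟩
  · have h4 := (step_rev S (h2 (m - 1 - k) (by omega))).1
    have e1 : m - 1 - k + 1 = m - k := by omega
    have e2 : m - 1 - k = m - (k + 1) := by omega
    rw [e1] at h4
    change S.Step (-d) (S.a (x (m - 1 - k)).1) (G S (x (m - k))) (G S (x (m - (k + 1))))
    rw [← e2]
    exact h4
  · change G S (x (m - m)) = G S (x (m - 0))
    rw [Nat.sub_self, Nat.sub_zero, h3]

theorem per_rev {d : ℂ} {p : Side n × ℂ} (h : p ∈ S.Per d) : G S p ∈ S.Per (-d) := by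
  obtain ⟨m, x, c, h1, h2⟩ := h
  refine ⟨m, _, _, cyc_rev S h1, ?_⟩
  rw [Nat.sub_zero, h1.2.2, h2]

theorem per_rev' {d : ℂ} {p : Side n × ℂ} (h : p ∈ S.Per (-d)) : G S p ∈ S.Per d := by
  have := per_rev S h
  rwa [neg_neg] at this

theorem acc_rev {d : ℂ} {x : ℕ → Side n × ℂ} (h : S.AccPer d (fun k => G S (x k))) :
    S.AccPer (-d) x := by
  obtain ⟨q, hq, hacc⟩ := h
  refine ⟨G S q, per_rev S hq, fun ε hε N => ?_⟩
  have ha := S.a_pos q.1
  obtain ⟨k, hk, h1, h2⟩ := hacc (ε / S.a q.1) (div_pos hε ha) N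
  refine ⟨k, hk, ?_, ?_⟩
  · have h3 := congrArg Prod.fst (G_G S (x k))
    rw [← h3]
    change S.gl (G S (x k)).1 = S.gl q.1
    rw [h1]
  · have h3 := congrArg Prod.snd (G_G S (x k))
    have h4 : (x k).2 - (G S q).2 = (S.a q.1 : ℂ) * ((G S (x k)).2 - q.2) := by
      rw [← h3]
      change (S.a (G S (x k)).1 : ℂ) * (G S (x k)).2 + S.b (G S (x k)).1 -
        (S.a q.1 * q.2 + S.b q.1) = _
      rw [h1]
      ring
    rw [h4, norm_mul, Complex.norm_real, Real.norm_of_nonneg ha.le, mul_comm]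
    exact (lt_div_iff₀ ha).1 h2

theorem ms_neg {d : ℂ} (hd : S.MorseSmale d) : S.MorseSmale (-d) := by
  obtain ⟨h1, h2, h3, h4, h5⟩ := hd
  refine ⟨?_, ?_, ?_, ?_, ?_⟩
  · refine (h1.image (G S)).subset fun p hp => ?_
    exact ⟨G S p, per_rev' S hp, G_G S p⟩
  · obtain ⟨p, hp⟩ := h2
    exact ⟨_, per_rev S hp⟩
  · intro m x c hc hprod
    have h6 := cyc_rev S hc
    rw [neg_neg] at h6
    apply h3 _ _ _ h6
    rw [Finset.prod_range_reflect (fun k => S.a (x k).1) m]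
    have h7 : ∀ k ∈ Finset.range m, c k = (S.a (x (k + 1)).1)⁻¹ := fun k hk =>
      (step_rev S (hc.2.1 k (Finset.mem_range.1 hk))).2
    rw [Finset.prod_congr rfl h7, Finset.prod_inv_distrib, inv_eq_one] at hprod
    have h8 := Finset.prod_range_succ (fun k => S.a (x k).1) m
    have h9 := Finset.prod_range_succ' (fun k => S.a (x k).1) m
    rw [h8, hc.2.2, hprod, one_mul] at h9
    exact mul_right_cancel₀ (S.a_pos (x 0).1).ne' (h9.trans (one_mul _).symm)
  · intro x hx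
    apply acc_rev
    apply h5
    intro k
    obtain ⟨c, hc⟩ := hx k
    have h6 := (step_rev S hc).1
    rw [neg_neg] at h6
    exact ⟨_, h6⟩
  · intro x hx
    apply acc_rev
    apply h4
    intro k
    obtain ⟨c, hc⟩ := hx k
    have h6 := (step_rev S hc).1
    rw [neg_neg] at h6
    exact ⟨_, h6⟩

theorem pf_SC : T_SC := by
  intro n S d hd
  exact ⟨fun l hl => ms_congr S (step_scale S d l hl) hd, ms_neg S hd⟩

end Pool.Agent.H59.DU.SC
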