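import Pool.Agent.H44.DU.Targets

/-!
# Module LH of the board `du_modules`
-/

set_option autoImplicit false

namespace Pool.Agent.H59.DU.LH

open Pool.Agent.H44.DU

theorem pf_LH : T_LH := by
  intro n S t w
  induction w with
  | nil => intro h; exact absurd rfl h
  | cons r w ih =>
    intro _ x
    cases w with
    | nil =>
      rw [S.run_single]
      simp [Surf.Chn, Surf.lo, Surf.hi, Surf.InJ]
    | cons r' w =>
      rw [S.run_cons_cons, ih (by simp) (S.mv t r x)]
      have h1 : S.Chn (r :: r' :: w) ↔ (S.gl r).1 = r'.1 ∧ S.Chn (r' :: w) := by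
        simp [Surf.Chn]
      rw [h1, Surf.lo, Surf.hi, max_lt_iff, lt_min_iff, div_lt_iff₀ (S.a_pos r),
        lt_div_iff₀ (S.a_pos r), Surf.InJ, Surf.mv]
      constructor
      · rintro ⟨⟨h2, h3⟩, h4, h5, h6, h7⟩
        exact ⟨⟨h4, h5⟩, ⟨h2, by linarith⟩, h3, by linarith⟩
      · rintro ⟨⟨h4, h5⟩, ⟨h2, h6⟩, h3, h7⟩
        exact ⟨⟨h2, h3⟩, h4, h5, by linarith, by linarith⟩

end Pool.Agent.H59.DU.LH
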