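import Pool.Agent.H44.DU.Targets

/-!
# Module X1 of the board `du_modules`
-/

set_option autoImplicit false

namespace Pool.Agent.H59.DU.X1

open Pool.Agent.H44.DU

variable {n : ℕ} (S : Surf n)

/-- Two continuations of a word give a point which hits the opposite vertex. -/
theorem hit {t : ℝ} {v : List (Side n)} {s : Side n} {x₁ x₂ : ℝ} (h1 : S.Run t v x₁)
    (h2 : S.Run t v x₂) (j1 : S.InJ t (nx s) (S.g t v x₁)) (j2 : S.InJ t (nx (nx s)) (S.g t v x₂)) :
    ∃ x, S.Run t v x ∧ S.g t v x = xi t (S.O s) := by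
  have hA := S.A_pos v
  have hg : S.g t v ((xi t (S.O s) - xi t (S.B v)) / S.A v) = xi t (S.O s) := by
    simp only [Surf.g]
    field_simp
    ring
  have k1 : xi t (S.O s) < S.g t v x₁ := by
    have := j1.1
    rwa [S.Q_nx] at this
  have k2 : S.g t v x₂ < xi t (S.O s) := by
    have := j2.2
    rwa [S.P_nx_nx] at this
  refine ⟨_, S.run_convex h2 h1 ?_ ?_, hg⟩
  · rw [← S.g_le_iff t v, hg]
    exact k2.le
  · rw [← S.g_le_iff t v, hg]
    exact k1.le

/-- The exit side after an entry. -/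
theorem next_cases {t x : ℝ} {v : List (Side n)} {l r : Side n}
    (h : S.Run t (v ++ [l] ++ [r]) x) : r = nx (S.gl l) ∨ r = nx (nx (S.gl l)) := by
  obtain ⟨h1, h2, h3⟩ := (S.run_snoc t v l r x).1 h
  rcases side_cases h2.symm with h4 | h4 | h4
  · exfalso
    rw [S.run_append] at h1
    have h5 : S.InJ t l (S.g t v x) := (S.run_single t l _).1 h1.2.2
    have h6 : S.InI t (S.gl l) (S.g t (v ++ [l]) x) := by
      rw [S.g_append, S.g_single, S.inI_gl_iff]
      exact h5
    rw [← h4] at h6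
    exact S.not_inI_of_inJ h3 h6
  · exact Or.inl h4
  · exact Or.inr h4

/-- The words of length `m` realised at `t`. -/
def W (t : ℝ) (m : ℕ) : Set (List (Side n)) := {w | w.length = m ∧ ∃ x, S.Run t w x}

/-- The words with a brother. -/
def Br (t : ℝ) (m : ℕ) : Set (List (Side n)) :=
  {w | ∃ u l, w = u ++ [l] ++ [nx (nx (S.gl l))] ∧ (u ++ [l]).length = m ∧
    (∃ x, S.Run t (u ++ [l] ++ [nx (nx (S.gl l))]) x) ∧
    ∃ x, S.Run t (u ++ [l] ++ [nx (S.gl l)]) x}

theorem W_finite (t : ℝ) (m : ℕ) : (W S t m).Finite :=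
  (List.finite_length_eq (Side n) m).subset fun _ hw => hw.1

theorem Br_finite (t : ℝ) (m : ℕ) : (Br S t m).Finite := by
  refine (List.finite_length_eq (Side n) (m + 1)).subset ?_
  rintro w ⟨u, l, h1, h2, -⟩
  change w.length = m + 1
  rw [h1, List.length_append, h2]
  rfl

theorem card_side : Nat.card (Side n) = 3 * n := by
  rw [Nat.card_eq_fintype_card, Fintype.card_prod, Fintype.card_fin, Fintype.card_fin, mul_comm]

theorem Br_card (hBD : T_BD) (t : ℝ) (m : ℕ) : (Br S t m).ncard ≤ 3 * n := by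
  have h1 : (Br S t m).ncard ≤ (Set.range (some : Side n → Option (Side n))).ncard := by
    refine Set.ncard_le_ncard_of_injOn (fun w => w.dropLast.getLast?) ?_ ?_ (Set.toFinite _)
    · rintro w ⟨u, l, rfl, -⟩
      refine ⟨l, ?_⟩
      simp
    · rintro w ⟨u, l, rfl, h2, ⟨x₂, h3⟩, ⟨x₁, h4⟩⟩ w' ⟨u', l', rfl, h2', ⟨x₂', h3'⟩, ⟨x₁', h4'⟩⟩ h
      have hl : l = l' := by simpa using h
      subst hl
      obtain ⟨a1, a2, a3⟩ := (S.run_snoc t u l _ x₂).1 h3
      obtain ⟨b1, b2, b3⟩ := (S.run_snoc t u l _ x₁).1 h4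
      obtain ⟨x, hx, hx'⟩ := hit S b1 a1 b3 a3
      obtain ⟨a1', a2', a3'⟩ := (S.run_snoc t u' l _ x₂').1 h3'
      obtain ⟨b1', b2', b3'⟩ := (S.run_snoc t u' l _ x₁').1 h4'
      obtain ⟨y, hy, hy'⟩ := hit S b1' a1' b3' a3'
      have h5 : u.length = u'.length := by
        simp only [List.length_append, List.length_singleton] at h2 h2'
        omega
      obtain ⟨h6, -⟩ := hBD n S t x y u u' l hx hy h5 (hx'.trans hy'.symm)
      rw [h6]
  refine h1.trans ?_
  rw [← Set.image_univ, Set.ncard_image_of_injective _ (Option.some_injective _),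
    Set.ncard_univ, card_side]

theorem step (hBD : T_BD) (t : ℝ) (m : ℕ) (hm : 0 < m) :
    (W S t (m + 1)).ncard ≤ (W S t m).ncard + 3 * n := by
  have h1 : (W S t (m + 1) \ Br S t m).ncard ≤ (W S t m).ncard := by
    refine Set.ncard_le_ncard_of_injOn (fun w => w.dropLast) ?_ ?_ (W_finite S t m)
    · rintro w ⟨⟨hw1, x, hw2⟩, -⟩
      refine ⟨by simp [hw1], x, ?_⟩
      rw [List.dropLast_eq_take]
      exact S.run_take hw2 _
    · rintro w ⟨⟨hw1, x, hw2⟩, hw3⟩ w' ⟨⟨hw1', x', hw2'⟩, hw3'⟩ h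
      have hne : w ≠ [] := by
        intro h0
        rw [h0] at hw1
        simp at hw1
      have hne' : w' ≠ [] := by
        intro h0
        rw [h0] at hw1'
        simp at hw1'
      have e1 := List.dropLast_append_getLast hne
      have e2 := List.dropLast_append_getLast hne'
      change w.dropLast = w'.dropLast at h
      have hv : w.dropLast.length = m := by rw [List.length_dropLast, hw1]; rfl
      have hvne : w.dropLast ≠ [] := by
        intro h0
        rw [h0] at hv
        simp at hv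
        omega
      have e3 := List.dropLast_append_getLast hvne
      obtain ⟨u, l, hul⟩ : ∃ u l, w.dropLast = u ++ [l] := ⟨_, _, e3.symm⟩
      rw [← h] at e2
      rw [hul] at e1 e2 hv
      rw [← e1] at hw2 hw3 ⊢
      rw [← e2] at hw2' hw3' ⊢
      have c1 := next_cases S hw2
      have c2 := next_cases S hw2'
      rcases c1 with c1 | c1 <;> rcases c2 with c2 | c2
      · rw [c1, c2]
      · exfalso
        apply hw3'
        rw [c1] at hw2
        rw [c2] at hw2' ⊢
        exact ⟨u, l, rfl, hv, ⟨x', hw2'⟩, ⟨x, hw2⟩⟩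
      · exfalso
        apply hw3
        rw [c2] at hw2'
        rw [c1] at hw2 ⊢
        exact ⟨u, l, rfl, hv, ⟨x, hw2⟩, ⟨x', hw2'⟩⟩
      · rw [c1, c2]
  have h2 : W S t (m + 1) ⊆ (W S t (m + 1) \ Br S t m) ∪ Br S t m := by
    intro w hw
    by_cases h : w ∈ Br S t m
    · exact Or.inr h
    · exact Or.inl ⟨hw, h⟩
  calc (W S t (m + 1)).ncard ≤ ((W S t (m + 1) \ Br S t m) ∪ Br S t m).ncard :=
        Set.ncard_le_ncard h2 (((W_finite S t (m + 1)).subset Set.sdiff_subset).union
          (Br_finite S t m))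
    _ ≤ (W S t (m + 1) \ Br S t m).ncard + (Br S t m).ncard := Set.ncard_union_le _ _
    _ ≤ (W S t m).ncard + 3 * n := Nat.add_le_add h1 (Br_card S hBD t m)

theorem pf_X1 (h : T_BD) : T_X1 := by
  intro n S t m hm
  change (W S t m).ncard ≤ 3 * n * m
  obtain ⟨k, rfl⟩ : ∃ k, m = k + 1 := ⟨m - 1, by omega⟩
  clear hm
  induction k with
  | zero =>
    have h1 : W S t (0 + 1) ⊆ Set.range (fun r : Side n => [r]) := by
      rintro w ⟨hw, -⟩
      obtain ⟨r, rfl⟩ := List.length_eq_one_iff.1 hw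
      exact ⟨r, rfl⟩
    calc (W S t (0 + 1)).ncard ≤ (Set.range (fun r : Side n => [r])).ncard :=
          Set.ncard_le_ncard h1 (Set.toFinite _)
      _ ≤ (Set.univ : Set (Side n)).ncard := by
          rw [← Set.image_univ]
          exact Set.ncard_image_le Set.finite_univ
      _ = 3 * n := by rw [Set.ncard_univ, card_side]
      _ = 3 * n * (0 + 1) := by ring
  | succ k ih =>
    have h2 := step S h t (k + 1) (Nat.succ_pos k)
    calc (W S t (k + 1 + 1)).ncard ≤ (W S t (k + 1)).ncard + 3 * n := h2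
      _ ≤ 3 * n * (k + 1) + 3 * n := Nat.add_le_add_right ih _
      _ = 3 * n * (k + 1 + 1) := by ring

end Pool.Agent.H59.DU.X1
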